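import Pool.Agent.H.MP_bbfbdc_al.Sph

set_option autoImplicit false

namespace Pool.Agent.Results.MP_bbfbdc_al.Lower

open Pool.Agent.H.MP_bbfbdc_al

theorem result : ∃ α : ℝ, 0 < α ∧ ∃ C : ℕ, 1 ≤ C ∧ ∀ n : ℕ,
    Real.exp ((n : ℝ) ^ α) ≤ sphere (C * n) := by
  obtain ⟨C, hC, h⟩ := sph.2
  set k := D.ncard * D.ncard with hk
  have hk1 : 1 ≤ k := by
    have : 0 < D.ncard := (Set.ncard_pos D_fin).2 ⟨1, 0, Or.inl rfl⟩
    exact Nat.mul_pos this this
  have h1 : ∀ j : ℕ, k * 3 ^ 2 ^ j ≤ ball (8 ^ j * (3 * k)) := by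
    intro j
    induction j with
    | zero => have := ball_ge (3 * k); simp; omega
    | succ j ih =>
      have h2 := ball_sq (n := 8 ^ j * (3 * k)) (Nat.mul_pos (by positivity) (by omega))
      rw [← hk, ← mul_assoc 8, ← pow_succ'] at h2
      apply Nat.le_of_mul_le_mul_right _ hk1
      refine le_trans (le_of_eq ?_) ((Nat.mul_le_mul ih ih).trans h2)
      rw [pow_succ, pow_mul]; ring
  refine ⟨1 / 3, by norm_num, C * (24 * k), Nat.mul_pos hC (by omega), fun n => ?_⟩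
  rcases Nat.eq_zero_or_pos n with rfl | hn
  · have : 0 < sphere 0 := (Set.ncard_pos (S_fin 0)).2 (len_surj 0)
    simpa using Nat.one_le_iff_ne_zero.2 this.ne'
  set j := Nat.log 8 n + 1 with hj
  have a1 : n < 8 ^ j := Nat.lt_pow_succ_log_self (by norm_num) n
  have a2 : 8 ^ j ≤ 8 * n := by
    rw [hj, pow_succ']
    exact Nat.mul_le_mul_left _ (Nat.pow_log_le_self 8 hn.ne')
  have a3 : 3 ^ 2 ^ j ≤ sphere (C * (24 * k) * n) := by
    rw [mul_assoc]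
    refine le_trans ?_ (h _ (Nat.mul_pos (by omega) hn))
    refine (Nat.le_mul_of_pos_left _ hk1).trans ((h1 j).trans (ball_mono ?_))
    nlinarith
  have a4 : (n : ℝ) ^ (1 / 3 : ℝ) ≤ ((2 ^ j : ℕ) : ℝ) := by
    have : (n : ℝ) ≤ ((2 ^ j : ℕ) : ℝ) ^ (3 : ℕ) := by
      rw [← Nat.cast_pow, ← pow_mul, mul_comm, pow_mul]
      exact_mod_cast a1.le
    refine (Real.rpow_le_rpow (Nat.cast_nonneg n) this (by norm_num)).trans (le_of_eq ?_)
    rw [← Real.rpow_natCast, ← Real.rpow_mul (Nat.cast_nonneg _)]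
    norm_num
  calc Real.exp ((n : ℝ) ^ (1 / 3 : ℝ)) ≤ Real.exp (((2 ^ j : ℕ) : ℝ) * 1) :=
        Real.exp_le_exp.2 (by rwa [mul_one])
    _ = Real.exp 1 ^ 2 ^ j := Real.exp_nat_mul _ _
    _ ≤ 3 ^ 2 ^ j := pow_le_pow_left₀ (Real.exp_pos _).le (by linarith [Real.exp_one_lt_d9]) _
    _ ≤ _ := by exact_mod_cast a3

end Pool.Agent.Results.MP_bbfbdc_al.Lower
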